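import Pool.Agent.MWGR.StmtsC

set_option autoImplicit false

namespace Pool.Agent.MWGR.H24

open Pool.Agent.Helper14_MV Pool.Agent.Helper2_MV Pool.Agent.MVO Pool.Agent.MWL Pool.Agent.MWS
  Pool.Agent.MWH

/-- a move of the block -/
def Mv (η : FIC) (H pre suf l l' : List ℕ) : Prop :=
  Ok1 H pre suf l → Ok1 H pre suf l' ∧ RR η (Wd pre suf l) (Wd pre suf l')

theorem Mv.trans {η : FIC} {H pre suf l1 l2 l3 : List ℕ} (h1 : Mv η H pre suf l1 l2)
    (h2 : Mv η H pre suf l2 l3) : Mv η H pre suf l1 l3 := by
  intro h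
  obtain ⟨h3, h4⟩ := h1 h
  obtain ⟨h5, h6⟩ := h2 h3
  exact ⟨h5, η.trans h4 h6⟩

theorem ok_cnt {H pre suf l l' : List ℕ} (h : Ok1 H pre suf l)
    (h1 : ∀ z, z ∉ H → l'.count z = l.count z) (h2 : ∀ z, z ∈ H → 2 ≤ l'.count z) :
    Ok1 H pre suf l' := by
  refine ⟨h.nd, h2, ?_⟩
  intro z hz hzH
  have h3 : z ∈ l := by
    rw [← List.count_pos_iff, ← h1 z hzH]
    exact List.count_pos_iff.mpr hz
  obtain ⟨h4, h5, h6⟩ := h.lt z h3 hzH
  exact ⟨by rw [h1 z hzH]; exact h4, h5, h6⟩

theorem mem_GG {S : List ℕ} {g : ℕ → ℕ} {z : ℕ} (h : z ∈ GG S g) : z ∈ S := by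
  rw [GG, List.mem_flatMap] at h
  obtain ⟨x, hx, h1⟩ := h
  rw [List.eq_of_mem_replicate h1]
  exact hx

theorem GG_cons (x : ℕ) (S : List ℕ) (g : ℕ → ℕ) :
    GG (x :: S) g = List.replicate (g x) x ++ GG S g := by
  rw [GG, List.flatMap_cons, ← GG]

theorem GG_perm {S S' : List ℕ} (h : S.Perm S') (g : ℕ → ℕ) : (GG S g).Perm (GG S' g) := by
  rw [GG, GG]
  exact h.flatMap_right _

section

variable {n : ℕ} {η : FIC} {H pre suf : List ℕ}

theorem mexl (hE : ExsStmt) (hB : BG n (RR η)) (A D : List ℕ) (x e e' : ℕ) (hx : x ∈ H)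
    (hA : x ∈ A) (hD : x ∈ D) (he : e ≡ e' [MOD n]) :
    Mv η H pre suf (A ++ (List.replicate e x ++ D)) (A ++ (List.replicate e' x ++ D)) := by
  intro h
  have h1 := (hE n η hB H pre suf [x] A D (fun _ => e) (fun _ => e') (by
    intro y hy
    rw [List.mem_singleton] at hy
    rw [hy]
    exact ⟨hx, hA, hD⟩)).1
  have h2 : ∀ k : ℕ, GG [x] (fun _ => k) = List.replicate k x := by
    intro k
    rw [GG_cons]
    simp [GG]
  rw [h2, h2] at h1
  exact h1 h (fun _ _ => he)

theorem mprm (hP : PrmStmt) (hB : BG n (RR η)) (A P P' D : List ℕ) (hPH : ∀ c ∈ P, c ∈ H)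
    (h : P.Perm P') : Mv η H pre suf (A ++ (P ++ D)) (A ++ (P' ++ D)) := by
  intro h1
  exact hP n η hB H pre suf A P P' D h1 hPH h

theorem mcro (hB : BG n (RR η)) (x a s s' : ℕ) (hx : x ∈ H) (hc : CRo n η H pre suf x a s s')
    (A D : List ℕ) :
    Mv η H pre suf (A ++ (List.replicate (n + s) x ++
      a :: (List.replicate (n + (n - 1) * s) x ++ D)))
      (A ++ (List.replicate (n + s') x ++
        a :: (List.replicate (n + (n - 1) * s') x ++ D))) := by
  intro h
  refine ⟨ok_cnt h ?_ ?_, hc A D h⟩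
  · intro z hz
    have h1 : x ≠ z := by
      rintro rfl
      exact hz hx
    simp only [List.count_append, List.count_cons, List.count_replicate]
    simp [h1]
  · intro z hz
    have h2 := h.hv z hz
    have h3 := hB.pos
    simp only [List.count_append, List.count_cons, List.count_replicate] at h2 ⊢
    by_cases h1 : x = z
    · simp only [h1, beq_self_eq_true, if_true] at h2 ⊢
      omega
    · have h4 : (x == z) = false := by simpa using h1
      simp only [h4] at h2 ⊢
      exact h2

/-- the label of a free letter may be changed -/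
theorem mshift (hE : ExsStmt) (hB : BG n (RR η)) (x a : ℕ) (hx : x ∈ H)
    (hc : ∀ s s', CRo n η H pre suf x a s s') (A D : List ℕ) (hA : x ∈ A) (hD : x ∈ D)
    (e1 e2 f1 f2 : ℕ) (he : e1 + e2 ≡ f1 + f2 [MOD n]) :
    Mv η H pre suf (A ++ (List.replicate e1 x ++ a :: (List.replicate e2 x ++ D)))
      (A ++ (List.replicate f1 x ++ a :: (List.replicate f2 x ++ D))) := by
  obtain ⟨m, hm⟩ : ∃ m, n = m + 1 := ⟨n - 1, by have := hB.pos; omega⟩
  have hmid : ∀ u v : ℕ, e1 + e2 ≡ u + v [MOD n] →
      v ≡ n + (n - 1) * u + (e1 + e2) [MOD n] := by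
    intro u v h
    have h1 : n + (n - 1) * u + (u + v) = v + n * (1 + u) := by
      rw [hm, Nat.add_sub_cancel]
      ring
    have h2 : n + (n - 1) * u + (e1 + e2) ≡ n + (n - 1) * u + (u + v) [MOD n] :=
      Nat.ModEq.add_left _ h
    rw [h1] at h2
    exact ((h2.trans (by simp [Nat.ModEq])).symm)
  have hn : ∀ u : ℕ, u ≡ n + u [MOD n] := by
    intro u
    simp [Nat.ModEq]
  -- from (u, v) to the form of CRo
  have key : ∀ u v : ℕ, e1 + e2 ≡ u + v [MOD n] →
      Mv η H pre suf (A ++ (List.replicate u x ++ a :: (List.replicate v x ++ D)))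
        (A ++ (List.replicate (n + u) x ++
          a :: (List.replicate (n + (n - 1) * u) x ++ (List.replicate (e1 + e2) x ++ D)))) ∧
      Mv η H pre suf (A ++ (List.replicate (n + u) x ++
          a :: (List.replicate (n + (n - 1) * u) x ++ (List.replicate (e1 + e2) x ++ D))))
        (A ++ (List.replicate u x ++ a :: (List.replicate v x ++ D))) := by
    intro u v h
    have a1 := mexl (pre := pre) (suf := suf) hE hB A (a :: (List.replicate v x ++ D)) x u (n + u)
      hx hA (by simp [hD]) (hn u)
    have a2 := mexl (pre := pre) (suf := suf) hE hB (A ++ (List.replicate (n + u) x ++ [a])) D x v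
      (n + (n - 1) * u + (e1 + e2)) hx (by simp [hA]) hD (hmid u v h)
    have b1 := mexl (pre := pre) (suf := suf) hE hB A (a :: (List.replicate v x ++ D)) x (n + u) u
      hx hA (by simp [hD]) (hn u).symm
    have b2 := mexl (pre := pre) (suf := suf) hE hB (A ++ (List.replicate (n + u) x ++ [a])) D x
      (n + (n - 1) * u + (e1 + e2)) v hx (by simp [hA]) hD (hmid u v h).symm
    have e : (A ++ (List.replicate (n + u) x ++ [a])) ++
        (List.replicate (n + (n - 1) * u + (e1 + e2)) x ++ D) =
        A ++ (List.replicate (n + u) x ++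
          a :: (List.replicate (n + (n - 1) * u) x ++ (List.replicate (e1 + e2) x ++ D))) := by
      rw [List.replicate_add (n + (n - 1) * u)]
      simp only [List.append_assoc, List.cons_append, List.nil_append]
    have e' : (A ++ (List.replicate (n + u) x ++ [a])) ++ (List.replicate v x ++ D) =
        A ++ (List.replicate (n + u) x ++ a :: (List.replicate v x ++ D)) := by
      simp only [List.append_assoc, List.cons_append, List.nil_append]
    rw [e, e'] at a2 b2
    exact ⟨a1.trans a2, b2.trans b1⟩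
  exact ((key e1 e2 rfl).1.trans (mcro hB x a e1 f1 hx (hc e1 f1) A _)).trans (key f1 f2 he).2

theorem GG_count_zero {S : List ℕ} {g : ℕ → ℕ} {z : ℕ} (h : z ∉ S) : (GG S g).count z = 0 :=
  List.count_eq_zero_of_not_mem fun h1 => h (mem_GG h1)

/-- the induction -/
theorem core (hP : PrmStmt) (hE : ExsStmt) (hB : BG n (RR η)) (a b c : ℕ) (g : ℕ → ℕ)
    (hx : SWx n η H pre suf a b c) :
    ∀ (T S2 A D : List ℕ), (T ++ S2).Nodup → (∀ x ∈ T ++ S2, x ∈ H ∧ x ∈ A ∧ x ∈ D) →
      (∀ x ∈ S2, ∃ e, g x ≡ e * c [MOD n]) →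
      (∀ x ∈ T, (∀ s s', CRo n η H pre suf x a s s') ∨ (∀ s s', CRo n η H pre suf x b s s')) →
      Mv η H pre suf (A ++ a :: (GG (T ++ S2) g ++ b :: D))
        (A ++ (GG (T ++ S2) g ++ b :: (GG (T ++ S2) (fun x => (n - 1) * g x) ++
          a :: (GG (T ++ S2) g ++ D)))) := by
  intro T
  induction T with
  | nil =>
    intro S2 A D hnd hS hg _ hok
    rw [List.nil_append] at hnd hS hok ⊢
    refine ⟨ok_cnt hok ?_ ?_, hx S2 g hnd hg A D hS hok⟩
    · intro z hz
      have h1 : z ∉ S2 := fun h => hz (hS z h).1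
      simp only [List.count_append, List.count_cons, GG_count_zero h1]
      omega
    · intro z hz
      by_cases h1 : z ∈ S2
      · have h2 := List.count_pos_iff.mpr (hS z h1).2.1
        have h3 := List.count_pos_iff.mpr (hS z h1).2.2
        simp only [List.count_append, List.count_cons]
        omega
      · have h2 := hok.hv z hz
        simp only [List.count_append, List.count_cons, GG_count_zero h1] at h2 ⊢
        omega
  | cons x T ih =>
    intro S2 A D hnd hS hg hfree
    rw [List.cons_append] at hnd hS ⊢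
    have hnd' := (List.nodup_cons.mp hnd).2
    have hxS := hS x (by simp)
    have hS' : ∀ y ∈ T ++ S2, y ∈ H ∧ y ∈ A ∧ y ∈ D := fun y hy =>
      hS y (List.mem_cons_of_mem _ hy)
    have hfree' := fun y (hy : y ∈ T) => hfree y (List.mem_cons_of_mem _ hy)
    set S' := T ++ S2 with hS'd
    have hGH : ∀ (f : ℕ → ℕ), ∀ y ∈ GG S' f, y ∈ H := fun f y hy => (hS' y (mem_GG hy)).1
    have hn0 : 0 ≡ (n - 1) * g x + g x [MOD n] := by
      obtain ⟨m, hm⟩ : ∃ m, n = m + 1 := ⟨n - 1, by have := hB.pos; omega⟩
      have : (n - 1) * g x + g x = n * g x := by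
        rw [hm, Nat.add_sub_cancel]
        ring
      rw [this]
      simp [Nat.ModEq]
    rw [GG_cons, GG_cons]
    rcases hfree x (by simp) with hf | hf
    · -- free for a
      have s1 := mshift hE hB x a hxS.1 hf A (GG S' g ++ b :: D) hxS.2.1 (by simp [hxS.2.2])
        0 (g x) (g x) 0 (by rw [Nat.zero_add, Nat.add_zero])
      have s2 := ih S2 (A ++ List.replicate (g x) x) D hnd'
        (fun y hy => ⟨(hS' y hy).1, by simp [(hS' y hy).2.1], (hS' y hy).2.2⟩) hg hfree'
      have s3 := mshift hE hB x a hxS.1 hf ((A ++ List.replicate (g x) x) ++ (GG S' g ++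
        b :: GG S' (fun x => (n - 1) * g x))) (GG S' g ++ D) (by simp [hxS.2.1])
        (by simp [hxS.2.2]) 0 0 ((n - 1) * g x) (g x) hn0
      have s4 := mprm (pre := pre) (suf := suf) hP hB ((A ++ List.replicate (g x) x) ++ (GG S' g ++ [b]))
        (GG S' (fun x => (n - 1) * g x) ++ List.replicate ((n - 1) * g x) x)
        (List.replicate ((n - 1) * g x) x ++ GG S' (fun x => (n - 1) * g x))
        (a :: (List.replicate (g x) x ++ (GG S' g ++ D))) (by
          intro y hy
          rcases List.mem_append.mp hy with h | h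
          · exact hGH _ y h
          · rw [List.eq_of_mem_replicate h]
            exact hxS.1) List.perm_append_comm
      simp only [List.replicate_zero, List.nil_append, List.append_assoc, List.cons_append]
        at s1 s2 s3 s4 ⊢
      exact ((s1.trans s2).trans s3).trans s4
    · -- free for b
      have s0 := mprm (pre := pre) (suf := suf) hP hB (A ++ [a])
        (List.replicate (g x) x ++ GG S' g) (GG S' g ++ List.replicate (g x) x) (b :: D) (by
          intro y hy
          rcases List.mem_append.mp hy with h | h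
          · rw [List.eq_of_mem_replicate h]
            exact hxS.1
          · exact hGH _ y h) List.perm_append_comm
      have s1 := mshift hE hB x b hxS.1 hf (A ++ a :: GG S' g) D (by simp [hxS.2.1]) hxS.2.2
        (g x) 0 0 (g x) (by rw [Nat.zero_add, Nat.add_zero])
      have s2 := ih S2 A (List.replicate (g x) x ++ D) hnd'
        (fun y hy => ⟨(hS' y hy).1, (hS' y hy).2.1, by simp [(hS' y hy).2.2]⟩) hg hfree'
      have s3 := mshift hE hB x b hxS.1 hf (A ++ GG S' g) (GG S' (fun x => (n - 1) * g x) ++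
        a :: (GG S' g ++ (List.replicate (g x) x ++ D))) (by simp [hxS.2.1])
        (by simp [hxS.2.2]) 0 0 (g x) ((n - 1) * g x) (by rw [Nat.add_comm (g x)]; exact hn0)
      have s4 := mprm (pre := pre) (suf := suf) hP hB A
        (GG S' g ++ List.replicate (g x) x) (List.replicate (g x) x ++ GG S' g)
        (b :: (List.replicate ((n - 1) * g x) x ++ (GG S' (fun x => (n - 1) * g x) ++
          a :: (GG S' g ++ (List.replicate (g x) x ++ D))))) (by
          intro y hy
          rcases List.mem_append.mp hy with h | h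
          · exact hGH _ y h
          · rw [List.eq_of_mem_replicate h]
            exact hxS.1) List.perm_append_comm
      have s5 := mprm (pre := pre) (suf := suf) hP hB
        (A ++ (List.replicate (g x) x ++ (GG S' g ++ b :: (List.replicate ((n - 1) * g x) x ++
          (GG S' (fun x => (n - 1) * g x) ++ [a])))))
        (GG S' g ++ List.replicate (g x) x) (List.replicate (g x) x ++ GG S' g) D (by
          intro y hy
          rcases List.mem_append.mp hy with h | h
          · exact hGH _ y h
          · rw [List.eq_of_mem_replicate h]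
            exact hxS.1) List.perm_append_comm
      simp only [List.replicate_zero, List.nil_append, List.append_assoc, List.cons_append]
        at s0 s1 s2 s3 s4 s5 ⊢
      exact ((((s0.trans s1).trans s2).trans s3).trans s4).trans s5

end

theorem msw (hP : PrmStmt) (hE : ExsStmt) (_hC : CrmStmt) : MswStmt := by
  intro n η hB H pre suf a b c g ha hb hx hfr S A D hnd hS hok
  classical
  let T := S.filter fun x => decide (¬ ∃ e, g x ≡ e * c [MOD n])
  let S2 := S.filter fun x => !decide (¬ ∃ e, g x ≡ e * c [MOD n])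
  have hperm : S.Perm (T ++ S2) := (List.filter_append_perm _ S).symm
  have hmem : ∀ x, x ∈ T ++ S2 ↔ x ∈ S := fun x => hperm.symm.mem_iff
  have hH : ∀ (f : ℕ → ℕ), ∀ y ∈ GG S f, y ∈ H := fun f y hy => (hS y (mem_GG hy)).1
  have hH' : ∀ (f : ℕ → ℕ), ∀ y ∈ GG (T ++ S2) f, y ∈ H := fun f y hy =>
    (hS y ((hmem y).mp (mem_GG hy))).1
  have s1 := mprm (pre := pre) (suf := suf) hP hB (A ++ [a]) (GG S g) (GG (T ++ S2) g) (b :: D)
    (hH g) (GG_perm hperm g)
  have s2 := core hP hE hB a b c g hx T S2 A D (hperm.nodup_iff.mp hnd)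
    (fun x h => hS x ((hmem x).mp h))
    (by
      intro x h
      have h1 := (List.mem_filter.mp h).2
      simpa using h1)
    (by
      intro x h
      obtain ⟨h1, h2⟩ := List.mem_filter.mp h
      have h3 : ¬ ∃ e, g x ≡ e * c [MOD n] := by simpa using h2
      rcases hfr x (hS x h1).1 with h4 | h4 | h4
      · exact Or.inl h4
      · exact Or.inr h4
      · exact absurd h4 h3)
  have s3 := mprm (pre := pre) (suf := suf) hP hB A (GG (T ++ S2) g) (GG S g)
    (b :: (GG (T ++ S2) (fun x => (n - 1) * g x) ++ a :: (GG (T ++ S2) g ++ D)))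
    (hH' g) (GG_perm hperm.symm g)
  have s4 := mprm (pre := pre) (suf := suf) hP hB (A ++ (GG S g ++ [b]))
    (GG (T ++ S2) (fun x => (n - 1) * g x)) (GG S (fun x => (n - 1) * g x))
    (a :: (GG (T ++ S2) g ++ D)) (hH' _) (GG_perm hperm.symm _)
  have s5 := mprm (pre := pre) (suf := suf) hP hB
    (A ++ (GG S g ++ b :: (GG S (fun x => (n - 1) * g x) ++ [a])))
    (GG (T ++ S2) g) (GG S g) D (hH' _) (GG_perm hperm.symm _)
  simp only [List.nil_append, List.append_assoc, List.cons_append] at s1 s2 s3 s4 s5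
  exact (((((s1.trans s2).trans s3).trans s4).trans s5) hok).2

end Pool.Agent.MWGR.H24
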