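import Pool.Agent.MWGR.StmtsE
import Pool.Agent.MWGR.StmtsN
import Pool.Agent.MWGR.Mono

set_option autoImplicit false

namespace Pool.Agent.MWGR.H24

open Pool.Agent.Helper14_MV Pool.Agent.Helper2_MV Pool.Agent.MVO Pool.Agent.MWL Pool.Agent.MWS
  Pool.Agent.MWH

theorem ts1 (hNFS : NfsStmt) (hCMB : CmbStmt) (hGCM : GcmStmt) (hRLS : RlsStmt)
    (_hFES : FesStmt) (hSWF : SwfStmt) (hSWS : SwsStmt) (hVEC : VecStmt) (hVER : VerStmt)
    (hMSW : MswStmt) (hFRL : FrlStmt) (hECD : EcdStmt) : Ts1Stmt := by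
  intro n β hR k B B' hF i a b hik hab ha1 hb1 hcb hcb' hj
  obtain ⟨j, hij, hjk, haj, hbj⟩ := hj
  have hCl := hCMB k B hF.ok hF.gm i j a b hij hjk hab haj hbj
  by_cases hFE : FE n 1 (RR β)
  · refine ⟨[], by simp, ?_⟩
    intro θ hθ _
    refine ⟨by simp, ?_⟩
    intro _ H pr haH hbH hH
    have hB := bg_mono hR.toBG hθ
    have hFE' := fe_mono hFE hθ
    have hSW : SWx n θ H pr (suf B i (k - i)) a b 1 := by
      rcases hCl with h | h
      · exact hVEC n θ hB H pr _ a b 1 haH hbH (hSWF n 1 θ hFE' H pr _ a b hab h)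
      · exact hVER n θ hB H pr _ a b 1 haH hbH (hSWF n 1 θ hFE' H pr _ b a hab.symm h)
    refine hMSW n θ hB H pr _ a b 1 (gap n (B i) a b) haH hbH hSW ?_
    intro x _
    refine Or.inr (Or.inr ⟨gap n (B i) a b x, ?_⟩)
    rw [Nat.mul_one]
  · obtain ⟨hF1, hAR⟩ : F1 n (RR β) ∧ (Al0 n (RR β) ∨ Rh n (RR β)) := by
      rcases hR.fe with h | h
      · exact absurd h hFE
      · exact h
    obtain ⟨R, hRn, hRm⟩ := hRLS k i a b B
    obtain ⟨g0, hg0n, hg01, hg0R, m, hm⟩ := hGCM n hR.pos R hRn (gap n (B i) a b)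
    refine ⟨[Ed.es g0], ?_, ?_⟩
    · intro e he
      rw [List.mem_singleton] at he
      rw [he]
      exact ⟨hF1, hg0n⟩
    · intro θ hθ _
      have hB := bg_mono hR.toBG hθ
      refine ⟨?_, ?_⟩
      · intro hRR e he
        rw [List.mem_singleton] at he
        rw [he, edin_es]
        have h1 := hNFS n k θ B B' hB hF hRR i a b hik hab ha1 hb1 hcb hcb' R hRn
          (fun x hx => (hRm x).mp hx) m
        exact (hECD n θ hB [1, 2] (by simp) (by simp) (by simp) (by simp)).1 _ _ hm h1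
      · intro hL H pr haH hbH hH
        have hes : Es n g0 (RR θ) := edin_es.mp (hL (Ed.es g0) (by simp))
        have hAR' : Al0 n (RR θ) ∨ Rh n (RR θ) := by
          rcases hAR with h | h
          · exact Or.inl (hθ _ _ h)
          · exact Or.inr (hθ _ _ h)
        have hEX := hSWS n g0 θ hB hes hAR' H pr (suf B i (k - i)) a b hCl
        have hSW := hVEC n θ hB H pr _ a b g0 haH hbH hEX
        refine hMSW n θ hB H pr _ a b g0 (gap n (B i) a b) haH hbH hSW ?_
        intro x hx
        by_cases hxR : x ∈ R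
        · obtain ⟨e, he⟩ := hg0R x hxR
          refine Or.inr (Or.inr ⟨e, ?_⟩)
          rw [he, Nat.mul_comm]
        · have hxa : x ≠ a := by
            rintro rfl
            exact haH hx
          have hxb : x ≠ b := by
            rintro rfl
            exact hbH hx
          by_cases hr : Rg k B i x a
          · have hr' : ¬ Rg k B i x b := fun h =>
              hxR ((hRm x).mpr ⟨hH x hx, hr, h⟩)
            exact Or.inr (Or.inl (hFRL n θ hB (kaba_mono hR.k hθ) k B hF.ok hF.gm i x b hik hxb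
              hr' H pr hbH).1)
          · exact Or.inl (hFRL n θ hB (kaba_mono hR.k hθ) k B hF.ok hF.gm i x a hik hxa
              hr H pr haH).1

end Pool.Agent.MWGR.H24
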